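import Pool.Agent.Q247.Vis.Count

/-!
# Almost all lattice points are visible along a polynomial with two distinct roots

Let `F` be a polynomial with integer coefficients, positive leading coefficient and at least two
distinct complex roots.  Then almost all points `(a, h)` are visible along `F`.

Proof.  If `(a, h)` is invisible and `a` is large, then there are `u < a` and coprime `0 < k < m`
such that `m F(u) = k F(a)`; moreover `m` divides `h` and `F(a)`.

* The number of `(a, h)` in the square `[1, N]²` with `m ∣ h`, `m ∣ F(a)` for some `m > M` is at most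
  `C N² ∑_{m > M} m ^ (-1-δ) + C N² / M`, because by a Vandermonde determinant at most `deg F`
  elements `a` of an interval of length `c m ^ δ` satisfy `m ∣ F(a)`.
* For fixed `k < m` the solutions of `m F(u) = k F(a)` satisfy `u = α a + τ + o(1)` with
  `α = (k/m) ^ (1 / deg F) < 1`. If there are infinitely many pairs `a`, `a + h` of solutions, then
  `α` is rational, `u = α a + τ` for all large such `a`, and `m F(α x + τ) = k F(x)` identically. But
  then the set of complex roots of `F` is mapped into itself by the contraction `x ↦ α x + τ`, hence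
  it has only one element. So the set of these `a` has density zero.
-/

set_option autoImplicit false

open Polynomial Filter Topology

namespace Pool.Agent.Results.MP_543a09_nt.DensityOne

/-- The point `(a, h)` is visible along `F`: there is a rational number `t` with `h = t F(a)` such
that `a` is the smallest positive integer `u` for which `t F(u)` is a positive integer. -/
def Visible (F : ℤ[X]) (a h : ℕ) : Prop :=
  ∃ t : ℚ, (h : ℚ) = t * ((F.eval (a : ℤ) : ℤ) : ℚ) ∧
    IsLeast {u : ℕ | 0 < u ∧ ∃ n : ℕ, 0 < n ∧ t * ((F.eval (u : ℤ) : ℤ) : ℚ) = n} a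

/-- If `F(a) > 0` is larger than all previous values and `(a, h)` is invisible, then `F(a)` divides
`h F(u)` for some `u < a` with `F(u) > 0`. -/
theorem exists_of_not_visible (F : ℤ[X]) (a h : ℕ) (ha : 1 ≤ a) (hh : 1 ≤ h)
    (hFa : 0 < F.eval (a : ℤ)) (hV : ¬ Visible F a h) :
    ∃ u < a, 0 < F.eval (u : ℤ) ∧ F.eval (a : ℤ) ∣ h * F.eval (u : ℤ) := by
  by_contra hcon
  push Not at hcon
  apply hV
  have hFa' : ((F.eval (a : ℤ) : ℤ) : ℚ) ≠ 0 := by exact_mod_cast hFa.ne'
  have hFaQ : (0 : ℚ) < ((F.eval (a : ℤ) : ℤ) : ℚ) := by exact_mod_cast hFa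
  have hhQ : (0 : ℚ) < h := by exact_mod_cast hh
  refine ⟨(h : ℚ) / ((F.eval (a : ℤ) : ℤ) : ℚ), (div_mul_cancel₀ _ hFa').symm, ?_, ?_⟩
  · exact ⟨ha, h, hh, div_mul_cancel₀ _ hFa'⟩
  · rintro u ⟨-, n, hn, hun⟩
    by_contra hlt
    push Not at hlt
    have h1 : (h : ℚ) * ((F.eval (u : ℤ) : ℤ) : ℚ) = n * ((F.eval (a : ℤ) : ℤ) : ℚ) := by
      rw [← hun]
      field_simp
    have h2 : (h : ℤ) * F.eval (u : ℤ) = n * F.eval (a : ℤ) := by exact_mod_cast h1
    have h3 : 0 < F.eval (u : ℤ) := by
      have h4 : 0 < (h : ℤ) * F.eval (u : ℤ) := by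
        rw [h2]
        have : (0 : ℤ) < n := by exact_mod_cast hn
        positivity
      exact (mul_pos_iff_of_pos_left (by exact_mod_cast hh)).1 h4
    exact hcon u hlt h3 (h2 ▸ Dvd.intro_left _ rfl)

open Classical in
/-- **Main result.** If `F` has positive leading coefficient and at least two distinct complex
roots, then the density `D(F)` of the visible points exists and is `1`. -/
theorem result (F : ℤ[X]) (hF : 0 < F.leadingCoeff)
    (hroots : ∃ x y : ℂ, x ≠ y ∧ aeval x F = 0 ∧ aeval y F = 0) :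
    Tendsto (fun N : ℕ =>
      (((Finset.Icc 1 N ×ˢ Finset.Icc 1 N).filter (fun p => Visible F p.1 p.2)).card : ℝ) /
        (N : ℝ) ^ 2) atTop (𝓝 1) := by
  have hd : 1 ≤ F.natDegree := by
    obtain ⟨x, _, -, hx, -⟩ := hroots
    by_contra hcon
    have h0 : F.natDegree = 0 := by omega
    obtain ⟨c, hc⟩ : ∃ c, F = C c := ⟨_, eq_C_of_natDegree_eq_zero h0⟩
    rw [hc] at hx hF
    rw [leadingCoeff_C] at hF
    rw [aeval_C] at hx
    simp only [algebraMap_int_eq, eq_intCast, Int.cast_eq_zero] at hx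
    omega
  obtain ⟨A, hA⟩ := Q247.Vis.eventually_increasing F hF hd
  have hmain := Q247.Vis.count_main F hF hroots (A + 1) (fun a h => ¬ Visible F a h) (by
    intro a h ha hh hV
    obtain ⟨h1, h2⟩ := hA a (by omega)
    obtain ⟨u, hu, hu1, hu2⟩ := exists_of_not_visible F a h (by omega) hh h1 hV
    obtain ⟨k, m, hk, hkm, hmh, hmF, he⟩ :=
      Q247.Vis.exists_ratio (F.eval (a : ℤ)) (F.eval (u : ℤ)) hu1 (h2 u hu) h hu2
    exact ⟨k, m, hk, hkm, hmh, hmF, u, he⟩)
  rw [Metric.tendsto_atTop]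
  intro ε hε
  obtain ⟨N₀, hN₀⟩ := hmain (ε / 2) (by positivity)
  refine ⟨max N₀ 1, fun N hN => ?_⟩
  have hN1 : 1 ≤ N := le_trans (le_max_right _ _) hN
  have hN0 : (0 : ℝ) < N := by exact_mod_cast hN1
  have h1 := hN₀ N (le_trans (le_max_left _ _) hN)
  have h2 : ((Finset.Icc 1 N ×ˢ Finset.Icc 1 N).filter (fun p => Visible F p.1 p.2)).card +
      ((Finset.Icc 1 N ×ˢ Finset.Icc 1 N).filter (fun p => ¬ Visible F p.1 p.2)).card = N * N := by
    rw [Finset.card_filter_add_card_filter_not, Finset.card_product, Nat.card_Icc,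
      Nat.add_sub_cancel]
  have h3 : (((Finset.Icc 1 N ×ˢ Finset.Icc 1 N).filter (fun p => Visible F p.1 p.2)).card : ℝ) +
      (((Finset.Icc 1 N ×ˢ Finset.Icc 1 N).filter (fun p => ¬ Visible F p.1 p.2)).card : ℝ) =
        (N : ℝ) ^ 2 := by
    rw [sq]; exact_mod_cast h2
  set x := (((Finset.Icc 1 N ×ˢ Finset.Icc 1 N).filter (fun p => Visible F p.1 p.2)).card : ℝ)
  set y := (((Finset.Icc 1 N ×ˢ Finset.Icc 1 N).filter (fun p => ¬ Visible F p.1 p.2)).card : ℝ)
    with hy
  have hy0 : 0 ≤ y := Nat.cast_nonneg _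
  have hN2 : (0 : ℝ) < (N : ℝ) ^ 2 := by positivity
  have h4 : x / (N : ℝ) ^ 2 - 1 = -(y / (N : ℝ) ^ 2) := by
    rw [← h3]
    have : x + y ≠ 0 := by rw [h3]; exact hN2.ne'
    field_simp
    ring
  rw [Real.dist_eq, h4, abs_neg, abs_of_nonneg (by positivity)]
  rw [div_lt_iff₀ hN2]
  have h1' : y ≤ ε / 2 * (N : ℝ) ^ 2 := by
    rw [hy]
    convert h1
  have h5 : 0 < ε * (N : ℝ) ^ 2 := by positivity
  linarith

end Pool.Agent.Results.MP_543a09_nt.DensityOne
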